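import Mathlib

set_option autoImplicit false

namespace Pool.Agent.H.MP_728180_al

open Module Finset

/-- Hilbert function of `A` with respect to the ideal `m` -/
noncomputable def hilb (k : Type) {A : Type} [Field k] [CommRing A] [Algebra k A] (m : Ideal A)
    (i : ℕ) : ℕ :=
  finrank k ((m ^ i).restrictScalars k) - finrank k ((m ^ (i + 1)).restrictScalars k)

/-- `P` is the Jordan type of multiplication by `l` -/
def IsJT (k : Type) {A : Type} [Field k] [CommRing A] [Algebra k A] (l : A) (P : Multiset ℕ) :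
    Prop :=
  ∃ (r : ℕ) (p : Fin r → ℕ) (b : Basis (Σ i, Fin (p i)) k A), (∀ i, 0 < p i) ∧
    P = Finset.univ.val.map p ∧ ∀ (i : Fin r) (j : Fin (p i)),
      l * b ⟨i, j⟩ = if h : j.1 + 1 < p i then b ⟨i, ⟨j.1 + 1, h⟩⟩ else 0

/-- `x = (t, a, b)`: the columns `a, ..., b` form a maximal run in row `t` of the bar graph -/
def IsRun (h : ℕ → ℕ) (x : ℕ × ℕ × ℕ) : Prop :=
  1 ≤ x.1 ∧ x.2.1 ≤ x.2.2 ∧ (∀ i, x.2.1 ≤ i → i ≤ x.2.2 → x.1 ≤ h i) ∧
    (x.2.1 = 0 ∨ h (x.2.1 - 1) < x.1) ∧ h (x.2.2 + 1) < x.1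

open scoped Classical in
/-- the contiguous partition -/
noncomputable def contig (h : ℕ → ℕ) : Multiset ℕ :=
  if hf : {x | IsRun h x}.Finite then hf.toFinset.val.map fun x => x.2.2 - x.2.1 + 1 else 0

/-- sum of the `t` largest parts -/
def top (P : Multiset ℕ) (t : ℕ) : ℕ := ((P.sort (· ≥ ·)).take t).sum

/-- dominance order -/
def Dom (P Q : Multiset ℕ) : Prop := ∀ t, top Q t ≤ top P t

theorem le_top_list (l : List ℕ) (hl : l.Pairwise (· ≥ ·)) (t : ℕ) (Q : Multiset ℕ)
    (h1 : Q ≤ l) (h2 : Q.card ≤ t) : Q.sum ≤ (l.take t).sum := by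
  induction l generalizing t Q with
  | nil => simp_all
  | cons a l ih =>
    rw [List.pairwise_cons] at hl
    by_cases h0 : Q = 0
    · simp [h0]
    obtain ⟨t, rfl⟩ : ∃ t', t = t' + 1 := ⟨t - 1, by
      have := Multiset.card_pos.2 h0
      omega⟩
    rw [List.take_succ_cons, List.sum_cons]
    by_cases ha : a ∈ Q
    · obtain ⟨Q', rfl⟩ := Multiset.exists_cons_of_mem ha
      rw [← Multiset.cons_coe, Multiset.cons_le_cons_iff] at h1
      have := ih hl.2 t Q' h1 (by simpa using h2)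
      rw [Multiset.sum_cons]
      omega
    · rw [← Multiset.cons_coe, Multiset.le_cons_of_notMem ha] at h1
      obtain ⟨c, hc⟩ := Multiset.exists_mem_of_ne_zero h0
      obtain ⟨Q', rfl⟩ := Multiset.exists_cons_of_mem hc
      have h3 := hl.1 c (by simpa using Multiset.mem_of_le h1 hc)
      have := ih hl.2 t Q' ((Multiset.le_cons_self _ _).trans h1) (by simpa using h2)
      rw [Multiset.sum_cons]
      omega

theorem le_top (P Q : Multiset ℕ) (t : ℕ) (h1 : Q ≤ P) (h2 : Q.card ≤ t) : Q.sum ≤ top P t :=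
  le_top_list _ (Multiset.pairwise_sort _ _) t Q (by rwa [Multiset.sort_eq]) h2

theorem list_eq (l l' : List ℕ) (h1 : ∀ a ∈ l, 0 < a) (h2 : ∀ a ∈ l', 0 < a)
    (h : ∀ t, (l.take t).sum = (l'.take t).sum) : l = l' := by
  induction l generalizing l' with
  | nil =>
    cases l' with
    | nil => rfl
    | cons a l' =>
      have := h 1
      have := h2 a (by simp)
      simp_all
  | cons a l ih =>
    cases l' with
    | nil =>
      have := h 1
      have := h1 a (by simp)
      simp_all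
    | cons a' l' =>
      have e : a = a' := by simpa using h 1
      subst e
      rw [ih l' (fun x hx => h1 x (by simp [hx])) (fun x hx => h2 x (by simp [hx]))
        fun t => by simpa using h (t + 1)]

theorem eq_of_top (P Q : Multiset ℕ) (h1 : ∀ a ∈ P, 0 < a) (h2 : ∀ a ∈ Q, 0 < a)
    (h : ∀ t, top P t = top Q t) : P = Q := by
  rw [← Multiset.sort_eq P (· ≥ ·), ← Multiset.sort_eq Q (· ≥ ·),
    list_eq _ _ (fun a ha => h1 a ((Multiset.mem_sort _).1 ha))
      (fun a ha => h2 a ((Multiset.mem_sort _).1 ha)) h]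

theorem le_map_ex {α : Type} (p : α → ℕ) (Q : Multiset ℕ) (s : Multiset α) (h : Q ≤ s.map p) :
    ∃ s' ≤ s, s'.map p = Q := by
  induction Q using Multiset.induction_on generalizing s with
  | empty => exact ⟨0, zero_le, rfl⟩
  | cons a Q ih =>
    obtain ⟨x, hx, rfl⟩ := Multiset.mem_map.1 (Multiset.mem_of_le h (Multiset.mem_cons_self _ _))
    obtain ⟨s, rfl⟩ := Multiset.exists_cons_of_mem hx
    rw [Multiset.map_cons, Multiset.cons_le_cons_iff] at h
    obtain ⟨s', h1, h2⟩ := ih s h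
    exact ⟨x ::ₘ s', Multiset.cons_le_cons _ h1, by rw [Multiset.map_cons, h2]⟩

theorem top_ex {r : ℕ} (p : Fin r → ℕ) (t : ℕ) :
    ∃ I : Finset (Fin r), I.card ≤ t ∧ top (Finset.univ.val.map p) t = ∑ i ∈ I, p i := by
  obtain ⟨s, h1, h2⟩ := le_map_ex p (((Finset.univ.val.map p).sort (· ≥ ·)).take t : List ℕ)
    Finset.univ.val (by
      conv_rhs => rw [← Multiset.sort_eq (Finset.univ.val.map p) (· ≥ ·)]
      exact Multiset.coe_le.2 (List.take_sublist _ _).subperm)
  refine ⟨⟨s, Multiset.nodup_of_le h1 Finset.univ.nodup⟩, ?_, ?_⟩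
  · have := congrArg Multiset.card h2
    simp only [Multiset.card_map, Multiset.coe_card, List.length_take] at this
    change s.card ≤ t
    omega
  · change _ = (s.map p).sum
    rw [h2, Multiset.sum_coe, top]

theorem run_fin (h : ℕ → ℕ) (N : ℕ) (hN : ∀ i, N ≤ i → h i = 0) : {x | IsRun h x}.Finite := by
  refine (Finset.finite_toSet (range (∑ i ∈ range N, h i + 1) ×ˢ range N ×ˢ range N)).subset ?_
  rintro ⟨t, a, b⟩ ⟨h1, h2, h3, -, -⟩
  simp only at h1 h2 h3
  have h4 := h3 b h2 le_rfl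
  have h5 : b < N := by
    by_contra hc
    rw [hN b (by omega)] at h4
    omega
  have h6 : h b ≤ ∑ i ∈ range N, h i :=
    Finset.single_le_sum (f := h) (fun _ _ => Nat.zero_le _) (Finset.mem_range.2 h5)
  simp only [Finset.coe_product, Finset.coe_range, Set.mem_prod, Set.mem_Iio]
  omega

theorem ex_run (h : ℕ → ℕ) (N : ℕ) (hN : ∀ i, N ≤ i → h i = 0) (s i : ℕ) (h1 : 1 ≤ s)
    (h2 : s ≤ h i) : ∃ a b, a ≤ i ∧ i ≤ b ∧ IsRun h (s, a, b) := by
  classical
  have ea : ∃ a, ∀ j, a ≤ j → j ≤ i → s ≤ h j := ⟨i, fun j a b => by rwa [le_antisymm b a]⟩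
  have eb : ∃ b, i ≤ b ∧ h (b + 1) < s := ⟨i + N, by omega, by rw [hN _ (by omega)]; omega⟩
  have a1 := Nat.find_spec ea
  have a2 : Nat.find ea ≤ i := Nat.find_min' ea fun j a b => by rwa [le_antisymm b a]
  have b1 := Nat.find_spec eb
  refine ⟨Nat.find ea, Nat.find eb, a2, b1.1, h1, a2.trans b1.1, fun j j1 j2 => ?_, ?_, b1.2⟩
  · simp only at j1 j2 ⊢
    by_cases hj : j ≤ i
    · exact a1 j j1 hj
    · have := Nat.find_min eb (m := j - 1) (by omega)
      rw [show j - 1 + 1 = j by omega] at this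
      omega
  · simp only
    by_contra hc
    push Not at hc
    refine Nat.find_min ea (m := Nat.find ea - 1) (by omega) fun j j1 j2 => ?_
    by_cases hj : j = Nat.find ea - 1
    · rw [hj]
      exact hc.2
    · exact a1 j (by omega) j2

/-- row `s` is an interval -/
def Unb (h : ℕ → ℕ) (s : ℕ) : Prop := ∀ a v b, a ≤ v → v ≤ b → s ≤ h a → s ≤ h b → s ≤ h v

theorem min_le_top (h : ℕ → ℕ) (N : ℕ) (hN : ∀ i, N ≤ i → h i = 0) (t : ℕ)
    (hu : ∀ s ≤ t, Unb h s) : ∑ i ∈ range N, min (h i) t ≤ top (contig h) t := by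
  classical
  have hf := run_fin h N hN
  let T := hf.toFinset.filter fun x => x.1 ≤ t
  have hT : ∀ x, x ∈ T ↔ IsRun h x ∧ x.1 ≤ t := fun x => by simp [T]
  refine le_trans ?_ (le_top _ (T.val.map fun x => x.2.2 - x.2.1 + 1) t ?_ ?_)
  · have e1 : ∑ i ∈ range N, min (h i) t =
        ((range N).sigma fun i => Finset.Icc 1 (min (h i) t)).card := by
      simp [Finset.card_sigma]
    have e2 : (T.val.map fun x => x.2.2 - x.2.1 + 1).sum =
        (T.sigma fun x => Finset.Icc x.2.1 x.2.2).card := by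
      rw [Finset.card_sigma]
      refine Finset.sum_congr rfl fun x hx => ?_
      have := ((hT x).1 hx).1.2.1
      rw [Nat.card_Icc]
      omega
    rw [e1, e2]
    refine Finset.card_le_card_of_surjOn (fun y => ⟨y.2, y.1.1⟩) ?_
    rintro ⟨i, s⟩ hy
    simp only [Finset.coe_sigma, Set.mem_sigma_iff, Finset.mem_coe, Finset.mem_Icc] at hy
    obtain ⟨a, b, h1, h2, h3⟩ := ex_run h N hN s i hy.2.1 (by omega)
    refine ⟨⟨(s, a, b), i⟩, ?_, rfl⟩
    simp only [Finset.coe_sigma, Set.mem_sigma_iff, Finset.mem_coe, Finset.mem_Icc]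
    exact ⟨(hT _).2 ⟨h3, by simp only; omega⟩, h1, h2⟩
  · rw [contig, dif_pos hf]
    exact Multiset.map_le_map (Finset.val_le_iff.2 (Finset.filter_subset _ _))
  · rw [Multiset.card_map, Finset.card_val]
    have : (Finset.Icc 1 t).card = t := by simp
    rw [← this]
    refine Finset.card_le_card_of_injOn (fun x => x.1) (fun x hx => ?_) ?_
    · have := (hT x).1 hx
      simp only [Finset.coe_Icc, Set.mem_Icc]
      exact ⟨this.1.1, this.2⟩
    · rintro ⟨s, a, b⟩ hx ⟨s', a', b'⟩ hy e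
      simp only at e
      subst e
      obtain ⟨⟨x1, x2, x3, x4, x5⟩, x6⟩ := (hT _).1 hx
      obtain ⟨⟨-, y2, y3, y4, y5⟩, -⟩ := (hT _).1 hy
      simp only at x1 x2 x3 x4 x5 x6 y2 y3 y4 y5
      have u := hu s x6
      have p1 := x3 a le_rfl x2
      have p2 := x3 b x2 le_rfl
      have q1 := y3 a' le_rfl y2
      have q2 := y3 b' y2 le_rfl
      have r1 := fun h1 h2 => u a (a' - 1) a' h1 h2 p1 q1
      have r2 := fun h1 h2 => u a' (a - 1) a h1 h2 q1 p1
      have r3 := fun h1 h2 => u b (b + 1) b' h1 h2 p2 q2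
      have r4 := fun h1 h2 => u b' (b' + 1) b h1 h2 q2 p2
      have : a = a' := by omega
      have : b = b' := by omega
      subst_vars
      rfl

end Pool.Agent.H.MP_728180_al
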