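import Pool.Agent.H.MP_728180_al.A

set_option autoImplicit false

namespace Pool.Agent.H.MP_728180_al

open Module Finset

section Lin

variable {k V W : Type} [Field k] [AddCommGroup V] [Module k V] [FiniteDimensional k V]
  [AddCommGroup W] [Module k W]

theorem rk_map (f : V →ₗ[k] W) (N : Submodule k V) :
    finrank k (N.map f) + finrank k (N ⊓ LinearMap.ker f : Submodule k V) = finrank k N := by
  have := LinearMap.finrank_range_add_finrank_ker (f.domRestrict N)
  rw [LinearMap.range_domRestrict, LinearMap.ker_domRestrict,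
    ← Submodule.finrank_map_subtype_eq N, Submodule.map_comap_subtype] at this
  exact this

theorem drop_le (f : V →ₗ[k] V) (X Y Z : Submodule k V) (h1 : Y ≤ X) (h2 : Z ≤ Y)
    (h3 : ∀ y ∈ Y, f y ∈ Z) (h4 : ∀ y ∈ Y, ∃ x ∈ X, y - f x ∈ Z) :
    finrank k Y - finrank k Z ≤ finrank k X - finrank k Y := by
  have a := rk_map (Z.mkQ ∘ₗ f) X
  have b := rk_map Z.mkQ Y
  rw [Submodule.ker_mkQ, inf_eq_right.2 h2] at b
  have c : finrank k Y ≤ finrank k (X ⊓ LinearMap.ker (Z.mkQ ∘ₗ f) : Submodule k V) :=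
    Submodule.finrank_mono fun y hy => ⟨h1 hy, by simpa using h3 y hy⟩
  have d : finrank k (Y.map Z.mkQ) ≤ finrank k (X.map (Z.mkQ ∘ₗ f)) := by
    refine Submodule.finrank_mono ?_
    rintro _ ⟨y, hy, rfl⟩
    obtain ⟨x, hx, e⟩ := h4 y hy
    exact ⟨x, hx, ((Submodule.Quotient.eq Z).2 e).symm⟩
  omega

theorem bound (f : V →ₗ[k] V) (F : ℕ → Submodule k V) (hF : ∀ i, F (i + 1) ≤ F i)
    (hf : ∀ i, ∀ x ∈ F i, f x ∈ F (i + 1)) (N : ℕ) (h0 : F 0 = ⊤) (hN : F N = ⊥)
    (M : Submodule k V) (hM : ∀ x ∈ M, f x ∈ M) (t : ℕ)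
    (ht : finrank k M ≤ t + finrank k (M.map f)) :
    finrank k M ≤ ∑ i ∈ range N, min (finrank k (F i) - finrank k (F (i + 1))) t ∧
    (∑ i ∈ range N, min (finrank k (F i) - finrank k (F (i + 1))) t ≤ finrank k M →
      ∀ w, w + 1 < N → t ≤ finrank k (F w) - finrank k (F (w + 1)) →
        finrank k (F (w + 1)) - finrank k (F (w + 2)) ≤ t →
        ∀ y ∈ F (w + 1), ∃ x ∈ F w, y - f x ∈ F (w + 2)) := by
  let e : ℕ → ℕ := fun i => finrank k (M ⊓ F i : Submodule k V)
  have e1 : ∀ i, e (i + 1) ≤ e i := fun i => Submodule.finrank_mono (inf_le_inf_left _ (hF i))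
  have tel : ∀ n, e n + ∑ i ∈ range n, (e i - e (i + 1)) = finrank k M := by
    intro n
    induction n with
    | zero =>
      simp only [e, Finset.range_zero, Finset.sum_empty, add_zero]
      rw [h0, inf_top_eq]
    | succ n ih =>
      rw [Finset.sum_range_succ]
      have := e1 n
      omega
  have eN : e N = 0 := by simp [e, hN]
  have l1 : ∀ i, finrank k ((M ⊓ F i) ⊔ F (i + 1) : Submodule k V) + e (i + 1) =
      e i + finrank k (F (i + 1)) := by
    intro i
    have := Submodule.finrank_sup_add_finrank_inf_eq (M ⊓ F i) (F (i + 1))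
    rwa [inf_assoc, inf_eq_right.2 (hF i)] at this
  have l1' : ∀ i, (M ⊓ F i) ⊔ F (i + 1) ≤ F i := fun i => sup_le inf_le_right (hF i)
  have l2 : ∀ i, e i ≤ t + finrank k ((M ⊓ F i).map f) := by
    intro i
    have a := rk_map f M
    have b := rk_map f (M ⊓ F i)
    have c : finrank k (M ⊓ F i ⊓ LinearMap.ker f : Submodule k V) ≤
        finrank k (M ⊓ LinearMap.ker f : Submodule k V) :=
      Submodule.finrank_mono (inf_le_inf_right _ inf_le_left)
    simp only [e]
    omega
  have l2' : ∀ i, (M ⊓ F i).map f ≤ M ⊓ F (i + 1) := by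
    rintro i _ ⟨x, hx, rfl⟩
    exact ⟨hM x hx.1, hf i x hx.2⟩
  have l3 : ∀ i ∈ range N, e i - e (i + 1) ≤ min (finrank k (F i) - finrank k (F (i + 1))) t := by
    intro i _
    have a := l1 i
    have b := Submodule.finrank_mono (l1' i)
    have c := l2 i
    have d : _ ≤ e (i + 1) := Submodule.finrank_mono (l2' i)
    omega
  have tN := tel N
  refine ⟨by have := Finset.sum_le_sum l3; omega, fun hle w hw h1 h2 y hy => ?_⟩
  have heq := (Finset.sum_eq_sum_iff_of_le l3).1 (le_antisymm (Finset.sum_le_sum l3) (by omega))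
  have a1 := heq w (Finset.mem_range.2 (by omega))
  have a2 := heq (w + 1) (Finset.mem_range.2 hw)
  have b1 : (M ⊓ F w).map f = M ⊓ F (w + 1) := by
    refine Submodule.eq_of_le_of_finrank_le (l2' w) ?_
    have := l2 w
    have := e1 w
    change e (w + 1) ≤ _
    omega
  have b2 : (M ⊓ F (w + 1)) ⊔ F (w + 2) = F (w + 1) := by
    refine Submodule.eq_of_le_of_finrank_le (l1' (w + 1)) ?_
    have := l1 (w + 1)
    have := e1 (w + 1)
    have : finrank k (F (w + 1 + 1)) ≤ finrank k (F (w + 1)) := Submodule.finrank_mono (hF _)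
    rw [show w + 2 = w + 1 + 1 from rfl] at h2 ⊢
    omega
  rw [← b2, ← b1] at hy
  obtain ⟨_, ⟨x, hx, rfl⟩, z, hz, rfl⟩ := Submodule.mem_sup.1 hy
  exact ⟨x, hx.2, by simpa using hz⟩

end Lin

variable {k A : Type} [Field k] [CommRing A] [Algebra k A] [FiniteDimensional k A]

omit [FiniteDimensional k A] in
theorem ex_M {l : A} {P : Multiset ℕ} (h : IsJT k l P) (t : ℕ) :
    ∃ M : Submodule k A, finrank k M = top P t ∧ (∀ x ∈ M, LinearMap.mulLeft k l x ∈ M) ∧
      finrank k M ≤ t + finrank k (M.map (LinearMap.mulLeft k l)) := by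
  classical
  obtain ⟨r, p, b, hp, rfl, hb⟩ := h
  haveI : FiniteDimensional k A := Module.Finite.of_basis b
  obtain ⟨I, h1, h2⟩ := top_ex p t
  let S : Finset (Σ i, Fin (p i)) := I.sigma fun _ => Finset.univ
  let M := Submodule.span k (b '' S)
  have hmem : ∀ i ∈ I, ∀ j, b ⟨i, j⟩ ∈ M := fun i hi j =>
    Submodule.subset_span ⟨_, by simp [S, hi], rfl⟩
  refine ⟨M, ?_, ?_, ?_⟩
  · have := finrank_span_set_eq_card (R := k) (s := b '' S)
      (b.linearIndependent.linearIndepOn_id.mono (Set.image_subset_range _ _))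
    rw [this, h2, Set.toFinset_image, Finset.card_image_of_injective _ b.injective,
      Finset.toFinset_coe]
    simp only [S, Finset.card_sigma, Finset.card_univ, Fintype.card_fin]
  · intro x hx
    have : M ≤ M.comap (LinearMap.mulLeft k l) := by
      refine Submodule.span_le.2 ?_
      rintro _ ⟨⟨i, j⟩, hy, rfl⟩
      have hi : i ∈ I := by simpa [S] using hy
      change l * _ ∈ M
      rw [hb]
      split_ifs
      · exact hmem i hi _
      · exact M.zero_mem
    exact this hx
  · let G := Submodule.span k ((I.image fun i => b ⟨i, ⟨0, hp i⟩⟩ : Finset A) : Set A)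
    have g1 : finrank k G ≤ t :=
      (finrank_span_finset_le_card _).trans (Finset.card_image_le.trans h1)
    have g2 : M ≤ G ⊔ M.map (LinearMap.mulLeft k l) := by
      refine Submodule.span_le.2 ?_
      rintro _ ⟨⟨i, ⟨j, hj⟩⟩, hy, rfl⟩
      have hi : i ∈ I := by simpa [S] using hy
      cases j with
      | zero =>
        exact Submodule.mem_sup_left (Submodule.subset_span (by
          simp only [Finset.coe_image]
          exact ⟨i, hi, rfl⟩))
      | succ j =>
        refine Submodule.mem_sup_right ⟨_, hmem i hi ⟨j, by omega⟩, ?_⟩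
        rw [LinearMap.mulLeft_apply, hb, dif_pos hj]
    have g3 := Submodule.finrank_mono g2
    have g4 := Submodule.finrank_add_le_finrank_add_finrank G (M.map (LinearMap.mulLeft k l))
    omega

theorem main (m : Ideal A) (hm : IsNilpotent m) (l : A) (hl : l ∈ m) (P : Multiset ℕ)
    (hP : IsJT k l P) (hD : Dom P (contig (hilb k m))) : P = contig (hilb k m) := by
  classical
  obtain ⟨N, hN⟩ := hm
  let F : ℕ → Submodule k A := fun i => (m ^ i).restrictScalars k
  have hF : ∀ i, F (i + 1) ≤ F i := fun i => Ideal.pow_le_pow_right (Nat.le_succ i)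
  have hf : ∀ i, ∀ x ∈ F i, LinearMap.mulLeft k l x ∈ F (i + 1) := by
    intro i x hx
    change l * x ∈ m ^ (i + 1)
    rw [pow_succ']
    exact Ideal.mul_mem_mul hl hx
  have h0 : F 0 = ⊤ := by simp [F]
  have hN' : F N = ⊥ := by simp [F, hN]
  have hz : ∀ i, N ≤ i → hilb k m i = 0 := by
    intro i hi
    have : m ^ i = ⊥ := le_bot_iff.1 ((Ideal.pow_le_pow_right hi).trans hN.le)
    unfold hilb
    rw [this, Submodule.restrictScalars_bot, finrank_bot, Nat.zero_sub]
  have hb : ∀ t, top P t ≤ ∑ i ∈ range N, min (hilb k m i) t ∧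
      (∑ i ∈ range N, min (hilb k m i) t ≤ top P t → ∀ w, w + 1 < N → t ≤ hilb k m w →
        hilb k m (w + 1) ≤ t → ∀ y ∈ F (w + 1), ∃ x ∈ F w, y - l * x ∈ F (w + 2)) := by
    intro t
    obtain ⟨M, h1, h2, h3⟩ := ex_M hP t
    rw [← h1]
    exact bound _ F hF hf N h0 hN' M h2 t h3
  have hu : ∀ s, Unb (hilb k m) s := by
    intro s
    induction s using Nat.strong_induction_on with
    | _ s ih =>
    intro a v b h1 h2 h3 h4
    by_contra hc
    obtain ⟨t, rfl⟩ : ∃ t, s = t + 1 := ⟨s - 1, by omega⟩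
    have hva : v ≠ a := by
      rintro rfl
      exact hc h3
    obtain ⟨w, rfl⟩ : ∃ w, v = w + 1 := ⟨v - 1, by omega⟩
    have hbN : b < N := by
      by_contra h
      rw [hz b (by omega)] at h4
      omega
    have q1 := (min_le_top _ N hz t fun s hs => ih s (by omega)).trans (hD t)
    have q2 := (hb t).2 q1 w (by omega)
      (ih t (by omega) a w b (by omega) (by omega) (by omega) (by omega)) (by omega)
    have q3 : ∀ n, ∀ y ∈ F (w + n + 1), ∃ x ∈ F (w + n), y - l * x ∈ F (w + n + 2) := by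
      intro n
      induction n with
      | zero => exact q2
      | succ n ihn =>
        intro y hy
        change y ∈ m ^ (w + n + 1 + 1) at hy
        rw [pow_succ'] at hy
        refine Submodule.mul_induction_on hy (fun c hc z hz => ?_) ?_
        · obtain ⟨x, hx, e⟩ := ihn z hz
          refine ⟨c * x, ?_, ?_⟩
          · change c * x ∈ m ^ (w + n + 1)
            rw [pow_succ']
            exact Ideal.mul_mem_mul hc hx
          · change _ ∈ m ^ (w + n + 2 + 1)
            rw [pow_succ', show c * z - l * (c * x) = c * (z - l * x) by ring]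
            exact Ideal.mul_mem_mul hc e
        · rintro y1 y2 ⟨x1, a1, b1⟩ ⟨x2, a2, b2⟩
          refine ⟨x1 + x2, Submodule.add_mem _ a1 a2, ?_⟩
          rw [show y1 + y2 - l * (x1 + x2) = (y1 - l * x1) + (y2 - l * x2) by ring]
          exact Submodule.add_mem _ b1 b2
    have q4 : ∀ n, hilb k m (w + 1 + n) ≤ hilb k m (w + 1) := by
      intro n
      induction n with
      | zero => rfl
      | succ n ihn =>
        refine le_trans ?_ ihn
        have := drop_le (LinearMap.mulLeft k l) _ _ _ (hF (w + (n + 1))) (hF (w + (n + 1) + 1))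
          (hf _) (q3 (n + 1))
        rw [show w + 1 + (n + 1) = w + (n + 1) + 1 by ring, show w + 1 + n = w + (n + 1) by ring]
        exact this
    have := q4 (b - (w + 1))
    rw [show w + 1 + (b - (w + 1)) = b by omega] at this
    omega
  refine eq_of_top _ _ ?_ ?_ fun t => le_antisymm
    ((hb t).1.trans (min_le_top _ N hz t fun s _ => hu s)) (hD t)
  · obtain ⟨r, p, b, hp, rfl, -⟩ := hP
    intro a ha
    obtain ⟨i, -, rfl⟩ := Multiset.mem_map.1 ha
    exact hp i
  · intro a ha
    rw [contig, dif_pos (run_fin _ N hz)] at ha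
    obtain ⟨i, -, rfl⟩ := Multiset.mem_map.1 ha
    omega

end Pool.Agent.H.MP_728180_al
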